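import Pool.Agent.H.MP_c44838_an.C

set_option autoImplicit false

namespace Pool.Agent.Results.MP_0dad12_an.AllN

open Pool.Agent.H.MP_0dad12_an Pool.Agent.H.MP_c44838_an Cardinal

/-- `A` is the tensor product of the matrix algebras `M_{m i}`: a nonzero unital C*-algebra
generated by pairwise commuting unital copies of the `M_{m i}`. -/
def IsTP {I : Type} (m : I → ℕ) (A : Type) [CStarAlgebra A] : Prop :=
  Nontrivial A ∧ ∃ φ : ∀ i, Matrix (Fin (m i)) (Fin (m i)) ℂ →⋆ₐ[ℂ] A,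
    (∀ i j, i ≠ j → ∀ x y, Commute (φ i x) (φ j y)) ∧
      Dense (StarAlgebra.adjoin ℂ (⋃ i, Set.range (φ i)) : Set A)

/-- `B` is a nonzero unital C*-algebra generated by commuting unital images of `A` and `C`
(as the C*-tensor product `A ⊗ C` is). -/
def IsTens (A C B : Type) [CStarAlgebra A] [CStarAlgebra C] [CStarAlgebra B] : Prop :=
  Nontrivial B ∧ ∃ (α : A →⋆ₐ[ℂ] B) (γ : C →⋆ₐ[ℂ] B), (∀ x y, Commute (α x) (γ y)) ∧
    Dense (StarAlgebra.adjoin ℂ (Set.range α ∪ Set.range γ) : Set B)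

/-- `C` embeds unitally into `A`. -/
def Emb (C A : Type) [CStarAlgebra C] [CStarAlgebra A] : Prop :=
  ∃ f : C →⋆ₐ[ℂ] A, Function.Injective f

theorem isTP_iff {I : Type} {m : I → ℕ} {A : Type} [CStarAlgebra A] : IsTP m A ↔
    Nontrivial A ∧ ∃ φ : Fam m A, Com φ ∧ Dense (Al φ Set.univ : Set A) := by
  simp only [IsTP, Al, Com, Set.biUnion_univ]

theorem range_sub {I J : Type} {m : I → ℕ} {n : J → ℕ} {A B : Type} [CStarAlgebra A]
    [CStarAlgebra B] {φ : Fam m A} (hd : Dense (Al φ Set.univ : Set A)) {θ : Fam n B}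
    (α : A →⋆ₐ[ℂ] B) (h : ∀ i x, α (φ i x) ∈ Al θ Set.univ) :
    Set.range α ⊆ (Al θ Set.univ).topologicalClosure := by
  rintro _ ⟨x, rfl⟩
  have hα : Continuous α := AddMonoidHomClass.continuous_of_bound α 1 fun a => by
    simpa using NonUnitalStarAlgHom.norm_apply_le α a
  refine map_mem_closure hα (hd x) fun y hy => ?_
  exact Al_ind (P := fun y => α y ∈ Al θ Set.univ) (fun i _ x => h i x)
    (fun c => by rw [AlgHomClass.commutes]; exact algebraMap_mem _ _)
    (fun _ _ h1 h2 => by rw [map_add]; exact add_mem h1 h2)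
    (fun _ _ h1 h2 => by rw [map_mul]; exact mul_mem h1 h2)
    (fun _ h1 => by rw [map_star]; exact star_mem h1) hy

theorem result :
    (∀ (I : Type) (m : I → ℕ), (∀ i, 0 < m i) → ∃ (A : Type) (_ : CStarAlgebra A), IsTP m A) ∧
    ∀ (I : Type) (m : I → ℕ) (n : ℕ) (K K' : Type), Infinite K' → #K < #K' →
      ∀ (A B C C' : Type) [CStarAlgebra A] [CStarAlgebra B] [CStarAlgebra C] [CStarAlgebra C'],
        IsTP m A → IsTP (fun _ : K => n) C → IsTP (fun _ : K' => n) C' → IsTens A C B →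
          Emb C' B → Emb C' A := by
  refine ⟨fun I n hn => ?_,
    fun I m n K K' h0 h1 A B C C' _ _ _ _ hA hC hC' ⟨_, α, γ, hc, hd⟩ ⟨f, _⟩ => ?_⟩
  · simpa only [isTP_iff] using exists_tp hn
  obtain ⟨_, φ, hφ, dφ⟩ := isTP_iff.1 hA
  obtain ⟨_, χ, hχ, dχ⟩ := isTP_iff.1 hC
  obtain ⟨_, χ', hχ', dχ'⟩ := isTP_iff.1 hC'
  let θ : Fam (Sum.elim m fun _ : K => n) B := fun j =>
    match j with
    | .inl i => α.comp (φ i)
    | .inr k => γ.comp (χ k)
  have hθ : Com θ := by
    rintro (i | i) (j | j) h x y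
    · exact (hφ i j (fun e => h (congrArg _ e)) x y).map α
    · exact hc _ _
    · exact (hc _ _).symm
    · exact (hχ i j (fun e => h (congrArg _ e)) x y).map γ
  have dθ : Dense (Al θ Set.univ : Set B) := by
    refine Dense.of_closure (hd.mono ?_)
    exact StarAlgebra.adjoin_le (S := (Al θ Set.univ).topologicalClosure) (Set.union_subset
      (range_sub dφ α fun i x => mem_Al (φ := θ) (j := Sum.inl i) (Set.mem_univ _) x)
      (range_sub dχ γ fun i x => mem_Al (φ := θ) (j := Sum.inr i) (Set.mem_univ _) x))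
  refine emb_of_card hφ (size_ne χ' (Classical.arbitrary K')) hχ' dχ' fun p hp hn => ?_
  have h2 := card_le' hθ dθ hp (ψ := fun k => (f.comp (χ' k)).comp (dvd_hom hn).some)
    fun a b h x y => (hχ' a b h _ _).map f
  have h3 : #{j | p ∣ Sum.elim m (fun _ : K => n) j} ≤ #{i | p ∣ m i} + #K := by
    refine le_trans (mk_le_mk_of_subset (t := Sum.inl '' {i | p ∣ m i} ∪ Set.range Sum.inr)
      ?_) ((mk_union_le _ _).trans (add_le_add mk_image_le mk_range_le))
    rintro (i | k) hj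
    · exact Or.inl ⟨i, hj, rfl⟩
    · exact Or.inr ⟨k, rfl⟩
  by_contra hcon
  exact (add_lt_of_lt (aleph0_le_mk K') (not_le.1 hcon) h1).not_ge (h2.trans h3)

end Pool.Agent.Results.MP_0dad12_an.AllN
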